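import Pool.Agent.K1H34.HYS.Stm

/-!
# Project HYS, pieces NEAR and DIST: arithmetic on a circle
-/

set_option autoImplicit false
open Classical Finset

namespace Pool.Agent.K1H8.HYS

open Pool.Agent.K1H34.HYS

theorem mod_two (M a : ℕ) (h : a < 2 * M) : a % M = if a < M then a else a - M := by
  split_ifs with h1
  · exact Nat.mod_eq_of_lt h1
  · rw [Nat.mod_eq_sub_mod (by omega), Nat.mod_eq_of_lt (by omega)]

theorem near_iff (M r i j : ℕ) (hi : i < M) (hj : j < M) :
    near M r i j ↔ (i ≤ j + r ∧ j ≤ i + r) ∨ j + M ≤ i + r ∨ i + M ≤ j + r := by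
  unfold near
  rw [mod_two M (i + M - j) (by omega), mod_two M (j + M - i) (by omega)]
  split_ifs <;> omega

theorem t_NEAR : S_NEAR := by
  intro M r hM
  refine ⟨fun i j => or_comm, fun j hj => ?_⟩
  have h1 : (range M).filter (fun i => near M r i j) = (range (2 * r + 1)).image (fun k =>
      if j + k < r then j + k + M - r else if j + k - r < M then j + k - r else j + k - r - M) := by
    ext i
    simp only [mem_filter, mem_range, mem_image]
    constructor
    · rintro ⟨hi, hn⟩
      rw [near_iff M r i j hi hj] at hn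
      by_cases c1 : i ≤ j + r ∧ j ≤ i + r
      · refine ⟨i + r - j, by omega, ?_⟩
        split_ifs <;> omega
      · by_cases c2 : j + M ≤ i + r
        · refine ⟨i + r - j - M, by omega, ?_⟩
          split_ifs <;> omega
        · refine ⟨i + M + r - j, by omega, ?_⟩
          split_ifs <;> omega
    · rintro ⟨k, hk, he⟩
      have hi : i < M := by
        split_ifs at he <;> omega
      refine ⟨hi, (near_iff M r i j hi hj).2 ?_⟩
      split_ifs at he <;> omega
  rw [h1, Finset.card_image_of_injOn, card_range]
  intro a ha b hb hab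
  simp only [coe_range, Set.mem_Iio] at ha hb
  dsimp only at hab
  split_ifs at hab <;> omega

theorem t_DIST : S_DIST := by
  intro M r b p x y hb hp hx hy hn
  have hX : x / b < M := Nat.div_lt_of_lt_mul hx
  have hY : y / b < M := Nat.div_lt_of_lt_mul hy
  rw [near_iff M r _ _ hY hX] at hn
  have hx1 : b * (x / b) ≤ x := Nat.mul_div_le x b
  have hx2 : x < b * (x / b) + b := by
    have := Nat.lt_mul_div_succ x (show 0 < b by omega)
    rw [Nat.mul_add, Nat.mul_one] at this
    exact this
  have hy1 : b * (y / b) ≤ y := Nat.mul_div_le y b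
  have hy2 : y < b * (y / b) + b := by
    have := Nat.lt_mul_div_succ y (show 0 < b by omega)
    rw [Nat.mul_add, Nat.mul_one] at this
    exact this
  generalize x / b = X at *
  generalize y / b = Y at *
  have hc : r * b = b * r := Nat.mul_comm _ _
  rcases le_total X Y with h | h
  · have h1 : X + r + 1 ≤ Y := by omega
    have h2 : Y + r + 1 ≤ X + M := by omega
    have h3 := Nat.mul_le_mul_left b h1
    have h4 := Nat.mul_le_mul_left b h2
    simp only [Nat.mul_add, Nat.mul_one] at h3 h4
    have h5 : (0 : ℤ) ≤ (y : ℤ) - x := by omega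
    rw [abs_sub_comm, abs_of_nonneg h5]
    constructor <;> omega
  · have h1 : Y + r + 1 ≤ X := by omega
    have h2 : X + r + 1 ≤ Y + M := by omega
    have h3 := Nat.mul_le_mul_left b h1
    have h4 := Nat.mul_le_mul_left b h2
    simp only [Nat.mul_add, Nat.mul_one] at h3 h4
    have h5 : (0 : ℤ) ≤ (x : ℤ) - y := by omega
    rw [abs_of_nonneg h5]
    constructor <;> omega

end Pool.Agent.K1H8.HYS
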